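import Pool.Agent.Helper54_AHH.IniF

/-!
# AHH, field INI with a revealed potential

The first configuration `⟨V₀, w, m + V₀ / w⟩`, `|V₀| ≤ w²`: the potential `V₀` is absorbed in the gauge.
The net, the absorption and the clocks are those of `⟨0, w, m⟩`.
-/

set_option autoImplicit false
set_option linter.unusedSectionVars false

open scoped BigOperators NNReal Matrix

noncomputable section

namespace Pool.Agent.AHH.H54

open Pool.Agent.BED (Tor)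
open Pool.Agent.AND2B (Prd Ev net kap Vef)
open Pool.Agent.ANP (Cfg)
open Pool.Agent.LE.QD (rs)
open Pool.Agent.LTG (Fm sT tT qd)
open Pool.Agent.AFJ (EE)
open Pool.Agent.ABY (vir)

variable {d M : ℕ} [NeZero M]

/-- the first configuration with a revealed potential -/
def TV (w : ℝ≥0) (m : ℂ) (V₀ : Tor d M → ℝ) : Cfg (Tor d M) :=
  ⟨V₀, fun _ => w, fun x => m + ((V₀ x / w : ℝ) : ℂ)⟩

theorem kapV (e₀ : ℝ) (w : ℝ≥0) (m : ℂ) (V₀ : Tor d M → ℝ) :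
    kap e₀ (TV w m V₀) = kap e₀ (T0 w m) := by
  funext x
  simp [kap, TV, T0]

theorem vefV {w : ℝ≥0} (hw : 0 < w) (m : ℂ) (V₀ : Tor d M → ℝ) :
    Vef (TV w m V₀) = Vef (T0 w m) := by
  have hw0 : (w : ℝ) ≠ 0 := by exact_mod_cast hw.ne'
  funext x
  simp only [Vef, TV, T0, Complex.add_re, Complex.ofReal_re]
  field_simp
  ring

theorem netV (E e₀ : ℝ) {w : ℝ≥0} (hw : 0 < w) (m : ℂ) (V₀ : Tor d M → ℝ) :
    net E e₀ (TV w m V₀) = net E e₀ (T0 w m) := by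
  unfold net
  rw [kapV, vefV hw]

theorem alV (w : ℝ≥0) (m : ℂ) (V₀ : Tor d M → ℝ) : Al (TV w m V₀) = Al (T0 w m) := rfl

theorem ggV (w : ℝ≥0) (m : ℂ) (V₀ : Tor d M → ℝ) : gg (TV w m V₀) = gg (T0 w m) := by
  funext x
  simp [gg, TV, T0]

theorem wwV (e₀ : ℝ) (w : ℝ≥0) (m : ℂ) (V₀ : Tor d M → ℝ) :
    ww e₀ (TV w m V₀) = ww e₀ (T0 w m) := by
  funext x
  unfold ww
  rw [kapV, ggV]

theorem efV (E e₀ : ℝ) {w : ℝ≥0} (hw : 0 < w) (m : ℂ) (V₀ : Tor d M → ℝ) :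
    Ef E e₀ (TV w m V₀) = Ef E e₀ (T0 w m) := by
  unfold Ef
  rw [kapV, netV E e₀ hw, alV]

theorem pvV (w : ℝ≥0) (m : ℂ) (V₀ : Tor d M → ℝ) (run : Finset (Tor d M)) (c : ℝ) :
    pv (TV w m V₀) run c = pv (T0 w m) run c := rfl

theorem pwV (w : ℝ≥0) (m : ℂ) (V₀ : Tor d M → ℝ) (run : Finset (Tor d M)) (c : ℝ) :
    pw (TV w m V₀) run c = pw (T0 w m) run c := by
  funext x
  unfold pw
  rw [ggV]

theorem yyV (E e₀ : ℝ) {w : ℝ≥0} (hw : 0 < w) (m : ℂ) (V₀ : Tor d M → ℝ)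
    (run : Finset (Tor d M)) (c : ℝ) (a : Tor d M) :
    yy E e₀ (TV w m V₀) run c a = yy E e₀ (T0 w m) run c a := by
  unfold yy
  rw [netV E e₀ hw, pvV, pwV]

/-- the shift of the gauge -/
theorem stN_shift (V : Env d M) (q : Num) {w : ℝ≥0} (hw : 0 < w) {V₀ : Tor d M → ℝ}
    (hV₀ : ∀ x, |V₀ x| ≤ (w : ℝ) ^ 2)
    (hm : ∀ x : Tor d M, net V.E V.e₀ (T0 w V.m₀ : Cfg (Tor d M)) x x = V.m₀)
    (hdel : (w : ℝ) ≤ q.del) (hmis : (w : ℝ) ≤ q.mis) (hC : ‖V.m₀‖ + w ≤ V.C₀)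
    (h : StN V q w (T0 w V.m₀) Finset.univ) : StN V q w (TV w V.m₀ V₀) Finset.univ := by
  have hw0 : (0 : ℝ) < w := by exact_mod_cast hw
  have hsh : ∀ x, ‖((V₀ x / w : ℝ) : ℂ)‖ ≤ w := by
    intro x
    rw [Complex.norm_real, Real.norm_eq_abs, abs_div, abs_of_pos hw0, div_le_iff₀ hw0]
    refine (hV₀ x).trans (le_of_eq ?_)
    ring
  obtain ⟨h1, h2, h3, h4, h5, h6, h7⟩ := h
  refine ⟨?_, ?_, ?_, ?_, ?_, ?_, ?_⟩
  · intro x hx
    obtain ⟨g1, -, -⟩ := h1 x hx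
    refine ⟨?_, ?_, ?_⟩
    · rw [ggV]
      exact g1
    · show ‖V.m₀ + ((V₀ x / w : ℝ) : ℂ)‖ ≤ V.C₀
      exact (norm_add_le _ _).trans ((add_le_add le_rfl (hsh x)).trans hC)
    · show ‖V.m₀ + ((V₀ x / w : ℝ) : ℂ) - V.m₀‖ ≤ q.del
      rw [add_sub_cancel_left]
      exact (hsh x).trans hdel
  · rw [alV]
    exact h2
  · intro x _
    rw [netV V.E V.e₀ hw, hm x]
    show ‖V.m₀ - (V.m₀ + ((V₀ x / w : ℝ) : ℂ))‖ ≤ q.mis
    rw [sub_add_cancel_left, norm_neg]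
    exact (hsh x).trans hmis
  · intro x hx y hy
    rw [netV V.E V.e₀ hw]
    exact h4 x hx y hy
  · intro x hx
    rw [netV V.E V.e₀ hw]
    exact h5 x hx
  · intro a ha
    rw [yyV V.E V.e₀ hw, ggV]
    exact h6 a ha
  · obtain ⟨εl, εu, bl, bu, k1, k2, k3⟩ := h7
    refine ⟨εl, εu, bl, bu, ?_, k2, k3⟩
    rw [alV, wwV, efV V.E V.e₀ hw]
    exact k1

/-- INI WITH A REVEALED POTENTIAL -/
def IniVP {d : ℕ} (Z : Prd d) (V : AND2B.Env d) : Prop :=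
  ∀ V₀ : V.X → ℝ, (∀ x, |V₀ x| ≤ (V.w : ℝ) ^ 2) →
    Z.HS V 0 0 ⟨V₀, fun _ => V.cl 0, fun x => V.m + ((V₀ x / V.w : ℝ) : ℂ)⟩ Finset.univ

theorem iniV : AND2B.Fld Z es IniVP := by
  intro d a c C hd ha hc hc' hC
  have hg : Ev d a es c C fun V => V.Good a es c C ∧ (V.w : ℝ) ≤ 1 := by
    refine Ev.intro' 1 1 one_pos one_pos ?_
    intro th c₁ C₁ α J _ _ _ _ _ _
    exact ⟨1, 1, one_pos, one_pos, fun V hV _ _ _ _ _ _ hw => ⟨hV, hw⟩⟩
  refine ((ini d a c C hd ha hc hc' hC).and hg).imp ?_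
  rintro V ⟨hini, hV, hw1⟩ V₀ hV₀
  have hini' : St (toE V c C) (bud V) 0 0 ⟨fun _ => 0, fun _ => V.cl 0, fun _ => V.m⟩
      Finset.univ := hini
  obtain ⟨k1, k2, k3⟩ := hini'
  have hw : 0 < V.w := hV.w
  have hw0 : (0 : ℝ) < V.w := by exact_mod_cast hw
  have hth1 : V.th ≤ 1 := hV.th.2.le
  have hst := hV.st
  rw [show (toE V c C).cl 0 = V.w from cl_zero V] at k1
  have k1' : StN (toE V c C) (qq V 0 0) V.w (T0 V.w V.m) Finset.univ := by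
    have h1 : (fun _ : V.X => V.cl 0) = fun _ => V.w := by
      funext _
      exact cl_zero V
    have h2 : (T0 V.w V.m : Cfg V.X) = ⟨fun _ => 0, fun _ => V.cl 0, fun _ => V.m⟩ := by
      rw [h1]
      rfl
    rw [h2]
    exact k1
  have key := stN_shift (toE V c C) (qq V 0 0) hw hV₀
    (fun x => by
      show net V.E V.e₀ (T0 V.w V.m) x x = V.m
      rw [net0 V.E V.e₀ V.w V.m V.ζ hst.hz, hst.hm x])
    (by
      show (V.w : ℝ) ≤ gr V (1 / 20) 0 0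
      refine le_trans ?_ (gr_bd V hth1 (by norm_num) 0 0).1
      conv_lhs => rw [← Real.rpow_one (V.w : ℝ)]
      exact Real.rpow_le_rpow_of_exponent_ge hw0 hw1 (by norm_num))
    (by
      show (V.w : ℝ) ≤ (V.cl 0 : ℝ) ^ (1 / 8 : ℝ)
      rw [cl_zero]
      conv_lhs => rw [← Real.rpow_one (V.w : ℝ)]
      exact Real.rpow_le_rpow_of_exponent_ge hw0 hw1 (by norm_num))
    (by
      show ‖V.m‖ + V.w ≤ 2 * C
      have h1 := hst.hc.2
      linarith only [h1, hw1, hC]) k1'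
  have h3 : (⟨V₀, fun _ => V.cl 0, fun x => V.m + ((V₀ x / V.w : ℝ) : ℂ)⟩ : Cfg V.X) =
      TV V.w V.m V₀ := by
    unfold TV
    rw [cl_zero]
  show St (toE V c C) (bud V) 0 0
    ⟨V₀, fun _ => V.cl 0, fun x => V.m + ((V₀ x / V.w : ℝ) : ℂ)⟩ Finset.univ
  rw [h3]
  refine ⟨?_, ?_, ?_⟩
  · rw [show (toE V c C).cl 0 = V.w from cl_zero V]
    exact key
  · intro m hm
    omega
  · refine ⟨fun _ => ∅, fun x hx => ?_, fun j B => ?_⟩
    · have hx' : V.w = 0 := hx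
      exact absurd hx' hw.ne'
    · rw [Finset.empty_inter, Finset.card_empty]
      exact Nat.zero_le _

end Pool.Agent.AHH.H54
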