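import Pool.Agent.AHH.Defs
import Pool.Agent.ANI.Stmts2

/-!
# AHH, row INI: the first configuration is good

`ini_st`: `Start2` gives `StN` for the configuration `⟨0, w, m⟩`, all sites running.
-/

set_option autoImplicit false
set_option linter.unusedSectionVars false

open scoped BigOperators NNReal Matrix

noncomputable section

namespace Pool.Agent.AHH.H54

open Pool.Agent.BED (Tor)
open Pool.Agent.LE.QF (BB KK Dl qf)
open Pool.Agent.LE.QD (rs hz)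
open Pool.Agent.AND2B (net kap Viol res Hr Vef)
open Pool.Agent.ANP (Cfg Geo Fc)
open Pool.Agent.AFJ (ind LaR EE cd)
open Pool.Agent.ABY (vir TT dg)
open Pool.Agent.LTG (Fm Bd sT tT qd LB UB mor bon wl wu)
open Pool.Agent.ANI (Start Start2)

variable {d M : ℕ} [NeZero M]

/-- the first configuration -/
def T0 (w : ℝ≥0) (m : ℂ) : Cfg (Tor d M) := ⟨fun _ => 0, fun _ => w, fun _ => m⟩

theorem kap0 (e₀ : ℝ) (w : ℝ≥0) (m : ℂ) (x : Tor d M) : kap e₀ (T0 w m) x = e₀ + w * m.im := rfl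

theorem al0 {w : ℝ≥0} (hw : 0 < w) (m : ℂ) : Al (T0 w m : Cfg (Tor d M)) = Finset.univ := by
  unfold Al T0
  exact Finset.filter_true_of_mem fun _ _ => hw

/-- the first resolvent -/
theorem net0 (E e₀ : ℝ) (w : ℝ≥0) (m ζ : ℂ) (hζ : ζ = ⟨E, e₀⟩ + ((w : ℝ) : ℂ) * m) :
    net E e₀ (T0 w m : Cfg (Tor d M)) = rs (0 : Tor d M → ℝ) ζ := by
  unfold net res Pool.Agent.ANR.Gr rs hz
  congr 1
  have hm : (0 : ℝ) - w * m.re = -(w * m.re) := by ring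
  ext x y
  simp only [Hr, Matrix.sub_apply, Matrix.map_apply, Matrix.add_apply, Matrix.diagonal_apply,
    Vef, T0, kap, Pi.zero_apply]
  split_ifs with h
  · rw [hζ]
    apply Complex.ext
    · simp
      ring
    · simp
  · simp

theorem pv0 (w : ℝ≥0) (m : ℂ) : pv (T0 w m : Cfg (Tor d M)) Finset.univ w = 0 := by
  funext x
  unfold pv T0
  simp

theorem vir0 {𝕜 : Type} [RCLike 𝕜] {X : Type} [Fintype X] [DecidableEq X] (K : Matrix X X 𝕜)
    (v : X → ℝ) (a : X) : vir K 0 v a = ∑ b, K a b * ((v b : ℝ) : 𝕜) := by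
  unfold vir TT
  have h1 : dg 𝕜 (0 : X → ℝ) = 0 := by
    unfold dg
    ext i j
    simp [Matrix.diagonal_apply]
  rw [h1, mul_zero, sub_zero, inv_one, Matrix.one_mulVec]
  rfl

theorem pw0 (w : ℝ≥0) (m : ℂ) (x : Tor d M) :
    pw (T0 w m : Cfg (Tor d M)) Finset.univ w x = w * m.im := by
  unfold pw gg T0 ind
  simp

theorem yy0 (E e₀ : ℝ) (w : ℝ≥0) (m ζ : ℂ) (hζ : ζ = ⟨E, e₀⟩ + ((w : ℝ) : ℂ) * m)
    (hm : 0 ≤ m.im) (a : Tor d M) :
    yy E e₀ (T0 w m : Cfg (Tor d M)) Finset.univ w a =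
      (w * m.im) * (‖∑ b, rs (0 : Tor d M → ℝ) ζ a b ^ 2‖ +
        ∑ b, ‖rs (0 : Tor d M → ℝ) ζ a b‖ ^ 2) := by
  unfold yy
  rw [pv0, vir0, vir0, net0 E e₀ w m ζ hζ]
  have hw : (0 : ℝ) ≤ w * m.im := mul_nonneg w.2 hm
  have h1 : ∑ b, BB (rs (0 : Tor d M → ℝ) ζ) a b *
      ((pw (T0 w m : Cfg (Tor d M)) Finset.univ w b : ℝ) : ℂ) =
      ((w * m.im : ℝ) : ℂ) * ∑ b, rs (0 : Tor d M → ℝ) ζ a b ^ 2 := by
    rw [Finset.mul_sum]
    refine Finset.sum_congr rfl fun b _ => ?_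
    rw [pw0]
    unfold BB
    ring
  have h2 : ∑ b, KK (rs (0 : Tor d M → ℝ) ζ) a b *
      ((pw (T0 w m : Cfg (Tor d M)) Finset.univ w b : ℝ) : ℝ) =
      (w * m.im) * ∑ b, ‖rs (0 : Tor d M → ℝ) ζ a b‖ ^ 2 := by
    rw [Finset.mul_sum]
    refine Finset.sum_congr rfl fun b _ => ?_
    rw [pw0]
    unfold KK
    ring
  have h3 : (∑ b, KK (rs (0 : Tor d M → ℝ) ζ) a b *
      (RCLike.ofReal (pw (T0 w m : Cfg (Tor d M)) Finset.univ w b) : ℝ)) =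
      (w * m.im) * ∑ b, ‖rs (0 : Tor d M → ℝ) ζ a b‖ ^ 2 := h2
  have h4 : (∑ b, BB (rs (0 : Tor d M → ℝ) ζ) a b *
      (RCLike.ofReal (pw (T0 w m : Cfg (Tor d M)) Finset.univ w b) : ℂ)) =
      ((w * m.im : ℝ) : ℂ) * ∑ b, rs (0 : Tor d M → ℝ) ζ a b ^ 2 := h1
  rw [h3, h4, norm_mul, Complex.norm_real, Real.norm_eq_abs, abs_of_nonneg hw]
  ring

/-- the form is the square of the absorption times the first form -/
theorem qd0 (E e₀ : ℝ) {w : ℝ≥0} (hw : 0 < w) (m ζ : ℂ) (hζ : ζ = ⟨E, e₀⟩ + ((w : ℝ) : ℂ) * m)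
    (f : Tor d M → ℝ) :
    qd (Ef E e₀ (T0 w m : Cfg (Tor d M))) f =
      (e₀ + w * m.im) ^ 2 * qf (Dl (KK (rs (0 : Tor d M → ℝ) ζ))) f := by
  unfold Ef
  rw [al0 hw, net0 E e₀ w m ζ hζ]
  have h1 : EE (rs (0 : Tor d M → ℝ) ζ) (kap e₀ (T0 w m : Cfg (Tor d M))) Finset.univ =
      (e₀ + w * m.im) ^ 2 • Dl (KK (rs (0 : Tor d M → ℝ) ζ)) := by
    unfold EE
    have h2 : cd (rs (0 : Tor d M → ℝ) ζ) (kap e₀ (T0 w m : Cfg (Tor d M))) Finset.univ =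
        (e₀ + w * m.im) ^ 2 • KK (rs (0 : Tor d M → ℝ) ζ) := by
      ext x y
      unfold cd
      rw [if_pos ⟨Finset.mem_univ _, Finset.mem_univ _⟩, kap0, kap0, Matrix.smul_apply,
        smul_eq_mul]
      ring
    rw [h2]
    unfold Dl
    ext x y
    simp only [Matrix.sub_apply, Matrix.smul_apply, Matrix.diagonal_apply, smul_eq_mul]
    split_ifs
    · rw [← Finset.mul_sum]
      ring
    · ring
  rw [h1]
  unfold qd qf
  rw [Finset.mul_sum]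
  refine Finset.sum_congr rfl fun a _ => ?_
  rw [Matrix.smul_mulVec, Pi.smul_apply, smul_eq_mul]
  ring

theorem bon0 (b : ℝ) (h : Tor d M → ℝ) :
    bon sT tT (fun _ : Bd d M => b) h = b * ∑ x, ∑ i, (h (x + Pi.single i 1) - h x) ^ 2 := by
  unfold bon
  rw [← Finset.mul_sum, Fintype.sum_prod_type_right]
  rfl

/-- the first form -/
theorem fm0 {E e₀ es c C D₁ : ℝ} {w : ℝ≥0} {m ζ : ℂ} (h : Start2 d M E e₀ w es m ζ c C)
    (hw : 0 < w) (he₀ : 0 < e₀) (he₀w : e₀ ≤ c * w) (hc : 0 < c) (_hc' : c ≤ 1 / 2) (hC : 1 ≤ C)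
    (hws : (w : ℝ) ^ es ≤ 1 / 2) (hD : 4 * C ^ 3 / w ≤ D₁) :
    Fm sT tT (Al (T0 w m : Cfg (Tor d M))) (ww e₀ (T0 w m)) (fun _ => 2 * (w : ℝ) ^ es)
      (fun _ => 1 - 1 / (2 * C)) (fun _ => c * (w : ℝ) ^ (8 * es - 1)) (fun _ => D₁)
      (qd (Ef E e₀ (T0 w m : Cfg (Tor d M)))) := by
  have hw0 : (0 : ℝ) < w := by exact_mod_cast hw
  have hg := h.hc.1
  have hg0 : 0 < m.im := lt_of_lt_of_le hc hg
  have hgC : m.im ≤ C := ((le_abs_self _).trans (Complex.abs_im_le_norm m)).trans h.hc.2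
  obtain ⟨κ, hκ⟩ : ∃ κ : ℝ, κ = e₀ + w * m.im := ⟨_, rfl⟩
  have hκ0 : 0 < κ := by rw [hκ]; positivity
  have hww : ∀ x : Tor d M, ww e₀ (T0 w m) x = κ * m.im := by
    intro x
    unfold ww gg
    rw [kap0, hκ]
    rfl
  have hpow : 0 < (w : ℝ) ^ es := Real.rpow_pos_of_pos hw0 es
  constructor
  · intro f
    obtain ⟨k, hk⟩ := h.hS f
    refine ⟨k, ?_⟩
    rw [qd0 E e₀ hw m ζ h.hz f]
    refine le_trans ?_ hk
    unfold mor
    rw [bon0]
    apply add_le_add _ le_rfl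
    rw [Finset.mul_sum]
    apply Finset.sum_le_sum
    intro x _
    apply mul_le_mul_of_nonneg_right _ (sq_nonneg _)
    unfold wl
    rw [al0 hw, if_pos (Finset.mem_univ _), hww, ← hκ, div_le_iff₀ (by positivity)]
    have h1 : 0 < κ * m.im := mul_pos hκ0 hg0
    have h2 : 1 ≤ (1 - (w : ℝ) ^ es) * (1 + 2 * (w : ℝ) ^ es) := by
      nlinarith only [hpow, hws]
    calc κ * m.im = κ * m.im * 1 := by ring
      _ ≤ κ * m.im * ((1 - (w : ℝ) ^ es) * (1 + 2 * (w : ℝ) ^ es)) :=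
          mul_le_mul_of_nonneg_left h2 h1.le
      _ = _ := by ring
  · intro f k
    have h1 := (h.hF f).2 k
    have h2 : qf ((w : ℝ) • Dl (KK (rs (0 : Tor d M → ℝ) ζ))) f =
        w * qf (Dl (KK (rs (0 : Tor d M → ℝ) ζ))) f := by
      unfold qf
      rw [Finset.mul_sum]
      refine Finset.sum_congr rfl fun a _ => ?_
      rw [Matrix.smul_mulVec, Pi.smul_apply, smul_eq_mul]
      ring
    rw [h2] at h1
    rw [qd0 E e₀ hw m ζ h.hz f, ← hκ]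
    obtain ⟨S₁, hS₁⟩ : ∃ S₁ : ℝ, S₁ = ∑ x, (f x - k x) ^ 2 := ⟨_, rfl⟩
    obtain ⟨S₂, hS₂⟩ : ∃ S₂ : ℝ, S₂ = ∑ x : Tor d M, ∑ i, (k (x + Pi.single i 1) - k x) ^ 2 :=
      ⟨_, rfl⟩
    have hS₁0 : 0 ≤ S₁ := by rw [hS₁]; exact Finset.sum_nonneg fun _ _ => sq_nonneg _
    have hS₂0 : 0 ≤ S₂ := by
      rw [hS₂]
      exact Finset.sum_nonneg fun _ _ => Finset.sum_nonneg fun _ _ => sq_nonneg _
    rw [← hS₁, ← hS₂] at h1
    have hmor : mor sT tT (wu (Al (T0 w m : Cfg (Tor d M))) (ww e₀ (T0 w m))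
        (fun _ => 1 - 1 / (2 * C))) (fun _ => D₁) f k =
        κ * m.im / (1 / (2 * C)) * S₁ + D₁ * S₂ := by
      unfold mor
      rw [bon0, ← hS₂, hS₁, Finset.mul_sum]
      congr 1
      apply Finset.sum_congr rfl
      intro x _
      unfold wu
      rw [al0 hw, if_pos (Finset.mem_univ _), hww, sub_sub_cancel]
    rw [hmor]
    have hκw : κ ≤ w * (2 * m.im) := by
      have h7 := mul_le_mul_of_nonneg_right hg hw0.le
      rw [hκ]
      linarith only [he₀w, h7]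
    -- `κ² q ≤ κ² / w * C (S₁ + S₂ / w²)`
    have h3 : κ ^ 2 * qf (Dl (KK (rs (0 : Tor d M → ℝ) ζ))) f ≤
        κ ^ 2 / w * (C * (S₁ + S₂ / (w : ℝ) ^ 2)) := by
      calc κ ^ 2 * qf (Dl (KK (rs (0 : Tor d M → ℝ) ζ))) f
          = κ ^ 2 / w * (w * qf (Dl (KK (rs (0 : Tor d M → ℝ) ζ))) f) := by
            field_simp
        _ ≤ _ := mul_le_mul_of_nonneg_left h1 (by positivity)
    refine h3.trans ?_
    have h4 : κ ^ 2 / w * C ≤ κ * m.im / (1 / (2 * C)) := by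
      rw [div_div_eq_mul_div, div_one]
      have h5 : κ / w ≤ 2 * m.im := by
        rw [div_le_iff₀ hw0]
        linarith only [hκw]
      calc κ ^ 2 / w * C = κ * C * (κ / w) := by ring
        _ ≤ κ * C * (2 * m.im) := mul_le_mul_of_nonneg_left h5 (by positivity)
        _ = κ * m.im * (2 * C) := by ring
    have h5 : κ ^ 2 / w * C / (w : ℝ) ^ 2 ≤ D₁ := by
      refine le_trans ?_ hD
      have h6 : κ ^ 2 ≤ (w * (2 * C)) ^ 2 := by
        apply pow_le_pow_left₀ hκ0.le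
        refine hκw.trans (mul_le_mul_of_nonneg_left ?_ hw0.le)
        linarith only [hgC]
      rw [div_le_div_iff₀ (by positivity) hw0]
      calc κ ^ 2 / w * C * w = κ ^ 2 * C := by field_simp
        _ ≤ (w * (2 * C)) ^ 2 * C := mul_le_mul_of_nonneg_right h6 (by positivity)
        _ = 4 * C ^ 3 * (w : ℝ) ^ 2 := by ring
    calc κ ^ 2 / w * (C * (S₁ + S₂ / (w : ℝ) ^ 2))
        = κ ^ 2 / w * C * S₁ + κ ^ 2 / w * C / (w : ℝ) ^ 2 * S₂ := by ring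
      _ ≤ _ := add_le_add (mul_le_mul_of_nonneg_right h4 hS₁0)
          (mul_le_mul_of_nonneg_right h5 hS₂0)

/-- INI: the first configuration is good -/
theorem ini_st (V : Env d M) (q : Num) {w : ℝ≥0} {es c C : ℝ} {ζ : ℂ}
    (h : Start2 d M V.E V.e₀ w es V.m₀ ζ c C) (hw : 0 < w) (he₀ : 0 < V.e₀) (he₀w : V.e₀ ≤ c * w)
    (hc : 0 < c) (hc' : c ≤ 1 / 2) (hC : 1 ≤ C) (hws : (w : ℝ) ^ es ≤ 1 / 2)
    (hG₀ : V.G₀ = rs (0 : Tor d M → ℝ) ζ) (hVc : V.c₀ ≤ c) (hVC : C ≤ V.C₀)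
    (hD₀ : 0 ≤ V.D₀) (hD₀' : V.D₀ ≤ c * (w : ℝ) ^ (8 * es - 1)) (hD₁ : 4 * C ^ 3 / w ≤ V.D₁)
    (hu₀ : 1 - 1 / (2 * C) ≤ V.u₀) (hdel : 0 ≤ q.del) (hmis : 0 ≤ q.mis)
    (hlam : (w : ℝ) ^ (-(2 / 3 + es)) ≤ q.lam) (htht : (w : ℝ) ^ (1 / 2 - es) ≤ q.tht)
    (heps : 2 * (w : ℝ) ^ es ≤ q.eps) (hrho : 0 ≤ q.rho) :
    StN V q w ⟨fun _ => 0, fun _ => w, fun _ => V.m₀⟩ Finset.univ := by
  have hw0 : (0 : ℝ) < w := by exact_mod_cast hw
  have hg0 : 0 < V.m₀.im := lt_of_lt_of_le hc h.hc.1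
  have hnet := net0 (d := d) (M := M) V.E V.e₀ w V.m₀ ζ h.hz
  have hpow : 0 < (w : ℝ) ^ es := Real.rpow_pos_of_pos hw0 es
  show StN V q w (T0 w V.m₀) Finset.univ
  refine ⟨?_, ?_, ?_, ?_, ?_, ?_, ?_⟩
  · intro x _
    refine ⟨hVc.trans h.hc.1, h.hc.2.trans hVC, ?_⟩
    have : (T0 w V.m₀ : Cfg (Tor d M)).mb x - V.m₀ = 0 := sub_self _
    rw [this, norm_zero]
    exact hdel
  · rw [al0 hw]
  · intro x _
    rw [hnet, h.hm x]
    have : V.m₀ - (T0 w V.m₀ : Cfg (Tor d M)).mb x = 0 := sub_self _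
    rw [this, norm_zero]
    exact hmis
  · intro x _ y _
    rw [hnet, hG₀, sub_self, norm_zero]
    exact hdel
  · intro x _
    rw [hnet]
    refine le_trans (le_of_eq ?_) ((h.hL x).trans hlam)
    unfold LaR KK
    refine Finset.sum_congr rfl fun y _ => ?_
    ring
  · intro a _
    rw [yy0 V.E V.e₀ w V.m₀ ζ h.hz hg0.le]
    have h1 : w * V.m₀.im * ‖∑ b, rs (0 : Tor d M → ℝ) ζ a b ^ 2‖ ≤
        V.m₀.im * (w : ℝ) ^ (1 / 2 - es) := by
      have h2 := mul_le_mul_of_nonneg_left (h.hB a) hg0.le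
      linarith only [h2]
    have h2 : w * V.m₀.im * ∑ b, ‖rs (0 : Tor d M → ℝ) ζ a b‖ ^ 2 ≤ V.m₀.im := by
      rw [h.hk a]
      have h3 : 0 < V.e₀ + w * V.m₀.im := by positivity
      rw [mul_div_assoc', div_le_iff₀ h3]
      nlinarith only [hg0, he₀]
    have h3 : (w : ℝ) ^ (1 / 2 - es) * V.m₀.im ≤ q.tht * V.m₀.im :=
      mul_le_mul_of_nonneg_right htht hg0.le
    have h4 : gg (T0 w V.m₀ : Cfg (Tor d M)) a = V.m₀.im := rfl
    rw [h4, mul_add]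
    linarith only [h1, h2, h3]
  · refine ⟨fun _ => 2 * (w : ℝ) ^ es, fun _ => 1 - 1 / (2 * C),
      fun _ => c * (w : ℝ) ^ (8 * es - 1), fun _ => V.D₁,
      fm0 h hw he₀ he₀w hc hc' hC hws hD₁, ?_, ?_⟩
    · intro x _
      refine ⟨by positivity, ?_, ?_, ?_⟩
      · show 2 * (w : ℝ) ^ es ≤ if x ∈ Finset.univ then q.eps else q.rho
        rw [if_pos (Finset.mem_univ x)]
        exact heps
      · have h1 : 1 / (2 * C) ≤ 1 := by
          rw [div_le_one (by positivity)]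
          linarith only [hC]
        linarith only [h1]
      · linarith only [hu₀, hrho]
    · intro e
      refine ⟨?_, le_rfl, ?_⟩
      · have h1 : V.D₀ * (1 - q.rho) ≤ V.D₀ := by
          have := mul_nonneg hD₀ hrho
          linarith only [this]
        exact h1.trans hD₀'
      · have h1 : 0 ≤ V.D₁ := le_trans (by positivity) hD₁
        have := mul_nonneg h1 hrho
        linarith only [this]

end Pool.Agent.AHH.H54
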