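import Pool.Agent.AHH.Z
import Pool.Agent.Helper54_AHH.INI

/-!
# AHH, field INI in final form
-/

set_option autoImplicit false

open scoped BigOperators NNReal Matrix

noncomputable section

namespace Pool.Agent.AHH.H54

open Pool.Agent.BED (Tor)
open Pool.Agent.AND2B (Prd Ev)

theorem exists_small (K p : ℝ) (hp : 0 < p) :
    ∃ w₀ : ℝ, 0 < w₀ ∧ ∀ w : ℝ, 0 < w → w ≤ w₀ → K * w ^ p ≤ 1 := by
  have hK : 0 < |K| + 1 := by positivity
  refine ⟨(1 / (|K| + 1)) ^ (1 / p), by positivity, fun w hw hw' => ?_⟩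
  have h1 : w ^ p ≤ 1 / (|K| + 1) := by
    calc w ^ p ≤ ((1 / (|K| + 1)) ^ (1 / p)) ^ p := Real.rpow_le_rpow hw.le hw' hp.le
      _ = 1 / (|K| + 1) := by
        rw [← Real.rpow_mul (by positivity), one_div_mul_cancel hp.ne', Real.rpow_one]
  calc K * w ^ p ≤ |K| * w ^ p :=
        mul_le_mul_of_nonneg_right (le_abs_self K) (Real.rpow_nonneg hw.le _)
    _ ≤ |K| * (1 / (|K| + 1)) := mul_le_mul_of_nonneg_left h1 (abs_nonneg K)
    _ ≤ 1 := by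
        rw [mul_one_div, div_le_one hK]
        linarith only

/-- field INI -/
theorem ini : IniF := by
  intro d a c C hd ha hc hc' hC
  have e1 : (0 : ℝ) < es := by unfold es; norm_num
  have e2 : es < 1 / 12 := by unfold es; norm_num
  have e3 : (1 : ℝ) / 18000 < es := by unfold es; norm_num
  refine Ev.intro 1 1 one_pos one_pos ?_
  intro th c₁ C₁ α J hth hth1 hth2 hc₁ hc₁' hα
  obtain ⟨w₁, hw₁, hw₁'⟩ := exists_small 2 es e1
  obtain ⟨w₂, hw₂, hw₂'⟩ := exists_small 4 (1 / 12 - es) (by linarith only [e2])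
  obtain ⟨w₃, hw₃, hw₃'⟩ := exists_small 2 (es - 1 / 18000) (by linarith only [e3])
  refine ⟨1, min 1 (min w₁ (min w₂ w₃)), one_pos, by positivity, ?_⟩
  intro V hV hVth hVc₁ hVC₁ hVα hVJ hVβ hVw
  have hw0 : 0 < V.w := hV.w
  have hw0' : (0 : ℝ) < V.w := by exact_mod_cast hw0
  have g1 : (V.w : ℝ) ≤ 1 := hVw.trans (min_le_left _ _)
  have g2 : (V.w : ℝ) ≤ w₁ := hVw.trans ((min_le_right _ _).trans (min_le_left _ _))
  have g3 : (V.w : ℝ) ≤ w₂ :=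
    hVw.trans ((min_le_right _ _).trans ((min_le_right _ _).trans (min_le_left _ _)))
  have g4 : (V.w : ℝ) ≤ w₃ :=
    hVw.trans ((min_le_right _ _).trans ((min_le_right _ _).trans (min_le_right _ _)))
  refine ⟨c * V.w, by positivity, ?_⟩
  intro e₀ m ζ he₀ he₀' hG
  have hst := hG.st
  have hth1' : V.th ≤ 1 := hV.th.2.le
  obtain ⟨U, hU⟩ : ∃ U : AND2B.Env d, U = { V with e₀ := e₀, m := m, ζ := ζ } := ⟨_, rfl⟩
  rw [← hU] at hst ⊢
  have hUw : U.w = V.w := by rw [hU]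
  have hUth : U.th ≤ 1 := by rw [hU]; exact hth1'
  have hUα : U.α = α := by rw [hU]; exact hVα
  have hUe : U.e₀ = e₀ := by rw [hU]
  have hUe0 : 0 < U.e₀ := by rw [hUe]; exact he₀
  have hUkk : U.kk 0 = 0 := by rw [hU]; exact hV.sc.k0
  have hsg : U.sg 0 = (U.w : ℝ) := by
    rw [sg_eq, hUkk, cl_zero]
  have hw : 0 < U.w := by rw [hUw]; exact hw0
  rw [← hUw] at hw0' g1 g2 g3 g4 he₀'
  rw [← hUe] at he₀'
  have hrp : ∀ p : ℝ, 0 ≤ p → (U.w : ℝ) ^ p ≤ 1 := fun p hp =>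
    Real.rpow_le_one hw0'.le g1 hp
  have hgr : ∀ p : ℝ, 0 < p → (U.w : ℝ) ^ p ≤ gr U p 0 0 := fun p hp => (gr_bd U hUth hp 0 0).1
  have hgr0 : ∀ p : ℝ, 0 < p → 0 ≤ gr U p 0 0 := fun p hp =>
    (Real.rpow_nonneg hw0'.le p).trans (hgr p hp)
  have hka0 : 0 < ka U := by unfold ka; positivity
  have hka : ka U ≤ 1 / 9000 := by
    unfold ka
    rw [hUα]
    have h2 : (2 : ℝ) ≤ α := by exact_mod_cast hα
    apply one_div_le_one_div_of_le (by norm_num)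
    nlinarith only [h2]
  have hlam : (U.w : ℝ) ^ (-(2 / 3 + es)) ≤ (qq U 0 0).lam := by
    show (U.w : ℝ) ^ (-(2 / 3 + es)) ≤
      1 / 4 * (U.cl 0 : ℝ) ^ (-(3 / 4) : ℝ) * (2 - U.sg 0 ^ (1 / 400 : ℝ))
    rw [cl_zero, hsg]
    have h1 := hw₂' _ hw0' g3
    have h2 : (U.w : ℝ) ^ (-(2 / 3 + es)) = (U.w : ℝ) ^ (1 / 12 - es) * (U.w : ℝ) ^ (-(3 / 4) : ℝ) := by
      rw [← Real.rpow_add hw0']
      congr 1
      ring
    have h3 := hrp (1 / 400) (by norm_num)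
    have h4 : 0 < (U.w : ℝ) ^ (-(3 / 4) : ℝ) := Real.rpow_pos_of_pos hw0' _
    rw [h2]
    calc (U.w : ℝ) ^ (1 / 12 - es) * (U.w : ℝ) ^ (-(3 / 4) : ℝ)
        ≤ 1 / 4 * (U.w : ℝ) ^ (-(3 / 4) : ℝ) :=
          mul_le_mul_of_nonneg_right (by linarith only [h1]) h4.le
      _ = 1 / 4 * (U.w : ℝ) ^ (-(3 / 4) : ℝ) * 1 := by ring
      _ ≤ _ := mul_le_mul_of_nonneg_left (by linarith only [h3]) (by positivity)
  have htht : (U.w : ℝ) ^ (1 / 2 - es) ≤ (qq U 0 0).tht := by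
    show (U.w : ℝ) ^ (1 / 2 - es) ≤ gr U (1 / 400) 0 0
    refine le_trans ?_ (hgr (1 / 400) (by norm_num))
    exact Real.rpow_le_rpow_of_exponent_ge hw0' g1 (by linarith only [e2])
  have heps : 2 * (U.w : ℝ) ^ es ≤ (qq U 0 0).eps := by
    show 2 * (U.w : ℝ) ^ es ≤ (U.cl 0 : ℝ) ^ (ka U / 2) * (2 - U.sg 0 ^ ka U)
    rw [cl_zero, hsg]
    have h1 := hw₃' _ hw0' g4
    have h2 : (U.w : ℝ) ^ es = (U.w : ℝ) ^ (es - 1 / 18000) * (U.w : ℝ) ^ ((1 : ℝ) / 18000) := by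
      rw [← Real.rpow_add hw0']
      congr 1
      ring
    have h3 : (U.w : ℝ) ^ ((1 : ℝ) / 18000) ≤ (U.w : ℝ) ^ (ka U / 2) :=
      Real.rpow_le_rpow_of_exponent_ge hw0' g1 (by linarith only [hka])
    have h4 := hrp (ka U) hka0.le
    have h5 : 0 < (U.w : ℝ) ^ (ka U / 2) := Real.rpow_pos_of_pos hw0' _
    have h6 : 0 < (U.w : ℝ) ^ ((1 : ℝ) / 18000) := Real.rpow_pos_of_pos hw0' _
    calc 2 * (U.w : ℝ) ^ es
        = 2 * (U.w : ℝ) ^ (es - 1 / 18000) * (U.w : ℝ) ^ ((1 : ℝ) / 18000) := by rw [h2]; ring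
      _ ≤ 1 * (U.w : ℝ) ^ ((1 : ℝ) / 18000) := mul_le_mul_of_nonneg_right h1 h6.le
      _ ≤ (U.w : ℝ) ^ (ka U / 2) * 1 := by linarith only [h3]
      _ ≤ _ := mul_le_mul_of_nonneg_left (by linarith only [h4]) h5.le
  have hws : (U.w : ℝ) ^ es ≤ 1 / 2 := by
    have h1 := hw₁' _ hw0' g2
    linarith only [h1]
  have key := ini_st (V := toE U c C) (qq U 0 0) (w := U.w) (es := es) (c := c) (C := C) (ζ := U.ζ)
    (by rw [hU] at hst ⊢; exact hst) hw hUe0 he₀' hc hc' hC hws rfl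
    (by show c / 2 ≤ c; linarith only [hc]) (by show C ≤ 2 * C; linarith only [hC])
    (by show 0 ≤ c * (U.w : ℝ) ^ (8 * es - 1); positivity) le_rfl le_rfl le_rfl
    (hgr0 _ (by norm_num)) (Real.rpow_nonneg (NNReal.coe_nonneg _) _) hlam htht heps
    (hgr0 _ (by positivity))
  show St (toE U c C) (bud U) 0 0 ⟨fun _ => 0, fun _ => U.cl 0, fun _ => U.m⟩ Finset.univ
  refine ⟨?_, ?_, ?_⟩
  · show StN (toE U c C) (qq U 0 0) (U.cl 0) ⟨fun _ => 0, fun _ => U.cl 0, fun _ => U.m⟩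
      Finset.univ
    rw [cl_zero]
    exact key
  · intro m hm
    omega
  · refine ⟨fun _ => ∅, fun x hx => ?_, fun j B => ?_⟩
    · have hx' : U.cl 0 = 0 := hx
      rw [cl_zero] at hx'
      exact absurd hx' hw.ne'
    · rw [Finset.empty_inter, Finset.card_empty]
      exact Nat.zero_le _

end Pool.Agent.AHH.H54
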