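import Pool.Agent.Helper54_AHH.Rfin
import Pool.Agent.Helper61_AHH.StpR
import Pool.Agent.Helper72_AHH.WtsT

/-!
# AND2B (MP_1906c1_mp): the field `rfin` without hypotheses
-/

set_option autoImplicit false

noncomputable section

namespace Pool.Agent.AHH.H54

/-- THE FIELD `rfin`, no hypotheses -/
theorem rfinT : RfinF :=
  rfin H72.wtsT fun d a c C _ _ hc _ hC Cr Cw hCr hCw =>
    (H61.stp_r d a c C Cr Cw (by linarith only [hCr]) hCw).imp fun V hV n _ => hV n

end Pool.Agent.AHH.H54
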