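import Pool.Agent.Helper61_AHH.Zn

/-!
# AND2B (MP_1906c1_mp): the sums of the numbers of dead sites (fields `fin` and `rfin`)
-/

set_option autoImplicit false

open scoped BigOperators NNReal

noncomputable section

namespace Pool.Agent.AHH.H54

open Finset
open Pool.Agent.AND2B (Ev)
open Pool.Agent.AND.Num
open Pool.Agent.AHH.H61

/-- the numbers of dead sites of the levels `< m` -/
theorem dsum {d : ℕ} {a : ℝ} {V : AND2B.Env d} (hP : V.Pre a) :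
    ∀ m ≤ V.N + 1, ∑ j ∈ range m, (3 ^ d * V.Dn j : ℝ) ≤
      3 ^ d / (1 - (V.th : ℝ)) * V.sg m ^ (-(5 / 4) : ℝ) := by
  have hth1 : (V.th : ℝ) < 1 := by exact_mod_cast hP.th.2
  have hth0 : (0 : ℝ) < V.th := by exact_mod_cast th_pos hP
  have h1th : 0 < 1 - (V.th : ℝ) := by linarith only [hth1]
  intro m
  induction m with
  | zero =>
    intro _
    rw [range_zero, sum_empty]
    have h0 := Real.rpow_nonneg (sg_pos hP 0).le (-(5 / 4) : ℝ)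
    positivity
  | succ m ih =>
    intro hm
    rw [sum_range_succ]
    have h1 := ih (by omega)
    have h2 : (V.Dn m : ℝ) ≤ V.sg (m + 1) ^ (-(5 / 4 : ℝ)) := hP.sc.dl m (by omega)
    have hs := sg_pos hP m
    have hs' := sg_pos hP (m + 1)
    have h3 : V.sg m ^ (-(5 / 4) : ℝ) ≤ V.th * V.sg (m + 1) ^ (-(5 / 4) : ℝ) := by
      have e1 : V.sg (m + 1) / V.th ≤ V.sg m := by
        rw [div_le_iff₀ hth0, mul_comm]
        exact sg_succ hP m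
      have e2 : V.sg m ^ (-(5 / 4) : ℝ) ≤ (V.sg (m + 1) / V.th) ^ (-(5 / 4) : ℝ) :=
        Real.rpow_le_rpow_of_nonpos (div_pos hs' hth0) e1 (by norm_num)
      have e3 : (V.sg (m + 1) / (V.th : ℝ)) ^ (-(5 / 4) : ℝ) =
          V.sg (m + 1) ^ (-(5 / 4) : ℝ) * (V.th : ℝ) ^ (5 / 4 : ℝ) := by
        rw [Real.div_rpow hs'.le hth0.le, Real.rpow_neg hth0.le, div_inv_eq_mul]
      have e4 : (V.th : ℝ) ^ (5 / 4 : ℝ) ≤ V.th := by
        have := Real.rpow_le_rpow_of_exponent_ge hth0 hth1.le (show (1 : ℝ) ≤ 5 / 4 by norm_num)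
        rwa [Real.rpow_one] at this
      rw [e3] at e2
      have e5 := mul_le_mul_of_nonneg_left e4 (Real.rpow_nonneg hs'.le (-(5 / 4) : ℝ))
      linarith only [e2, e5]
    have h4 : (3 : ℝ) ^ d / (1 - (V.th : ℝ)) * V.sg m ^ (-(5 / 4) : ℝ) ≤
        3 ^ d / (1 - (V.th : ℝ)) * (V.th * V.sg (m + 1) ^ (-(5 / 4) : ℝ)) :=
      mul_le_mul_of_nonneg_left h3 (by positivity)
    have h5 : (3 : ℝ) ^ d * V.Dn m ≤ 3 ^ d * V.sg (m + 1) ^ (-(5 / 4) : ℝ) :=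
      mul_le_mul_of_nonneg_left h2 (by positivity)
    have h6 : (3 : ℝ) ^ d / (1 - (V.th : ℝ)) * (V.th * V.sg (m + 1) ^ (-(5 / 4) : ℝ)) +
        3 ^ d * V.sg (m + 1) ^ (-(5 / 4) : ℝ) =
        3 ^ d / (1 - (V.th : ℝ)) * V.sg (m + 1) ^ (-(5 / 4) : ℝ) := by
      field_simp
      ring
    linarith only [h1, h4, h5, h6]

/-- THE TWO SUMS OF `WtsStmt` -/
theorem sums (d : ℕ) (a c C : ℝ) :
    Ev d a es c C fun V => ∀ m ≤ V.N + 1,
      ∑ j ∈ range m, (3 ^ d * V.Dn j : ℝ) / 2 ^ V.l j ≤ 1 / 4 ∧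
      ∀ s : ℝ, 0 < s → s ≤ V.sg m →
        2 + 4 * ∑ j ∈ range m, (3 ^ d * V.Dn j : ℝ) ≤ s ^ (-2 : ℝ) := by
  have h1 : Ev d a es c C fun V => ∀ s : ℝ, 0 < s → s ≤ V.w →
      (2 * s ^ (0 : ℝ) ≤ 1 / 2 * s ^ (-2 : ℝ) ∧
      4 * (3 ^ d / (1 - (V.th : ℝ))) * s ^ (-(5 / 4) : ℝ) ≤ 1 / 2 * s ^ (-2 : ℝ)) :=
    ev_small (fun th _ _ _ _ s => 2 * s ^ (0 : ℝ) ≤ 1 / 2 * s ^ (-2 : ℝ) ∧
      4 * (3 ^ d / (1 - (th : ℝ))) * s ^ (-(5 / 4) : ℝ) ≤ 1 / 2 * s ^ (-2 : ℝ))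
      fun th _ _ _ _ _ _ _ _ =>
        (small_pow' 2 (1 / 2) _ _ (by norm_num) (by norm_num)).and
          (small_pow' (4 * (3 ^ d / (1 - (th : ℝ)))) (1 / 2) _ _ (by norm_num) (by norm_num))
  refine (h1.and ev_good).imp fun V hV m hm => ?_
  obtain ⟨h1, hG⟩ := hV
  have hP : V.Pre a := hG.toPre
  refine ⟨?_, fun s hs hsm => ?_⟩
  · refine (sum_le_sum_of_subset_of_nonneg (range_mono (show m ≤ V.N + 2 by omega))
      fun i _ _ => by positivity).trans hP.sc.ds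
  · obtain ⟨g1, g2⟩ := h1 s hs (hsm.trans (sg_le hP m))
    rw [Real.rpow_zero] at g1
    have h2 := dsum hP m hm
    have hth1 : (V.th : ℝ) < 1 := by exact_mod_cast hP.th.2
    have h1th : 0 < 1 - (V.th : ℝ) := by linarith only [hth1]
    have h3 : V.sg m ^ (-(5 / 4) : ℝ) ≤ s ^ (-(5 / 4) : ℝ) :=
      Real.rpow_le_rpow_of_nonpos hs hsm (by norm_num)
    have h4 := mul_le_mul_of_nonneg_left h3
      (show (0 : ℝ) ≤ 3 ^ d / (1 - (V.th : ℝ)) by positivity)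
    linarith only [g1, g2, h2, h4]

end Pool.Agent.AHH.H54
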